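import Pool.Agent.MWLE.Defs
import Pool.Agent.MWGN.StmtsA

/-!
# MWLE, part A: tools and rigidity (rows)

MP_23468a_al, light ends of the world `xyx ≈ xyx^2`.  Every row is self contained, its complete proof
is in the docstring.  Tools: `RR.append`, `RR.sub`, `RR.filter`, `RR.symm`, `RR.refl`, `β.trans`;
the lemmas on `pre` in MWK/Defs.lean; `nn w c q = (pre w q).count c`; proved and on main (import
them): `MWF.POW`, `MWF.CTT`, `MWF.SIM`, MWGN `OLR`, `TLR`, `SRT`, `PRF` (table mwgn has the paths).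
`Gz β`: `gw.gm : 0 1 0 ~ 0 1 0 0` (so in the form `c u c ~ c u c c`: an occurrence which is not the
first one may be doubled), `gw.ap.sq : 0 0 ~ 0 0 0`, `c : 0 0 1 1 ~ 1 1 0 0` (squares of words commute).
-/

namespace Pool.Agent.MWLE

open Pool.Agent.Helper14_MV Pool.Agent.Helper2_MV
open Pool.Agent.MWK (pre Gw)
open Pool.Agent.MWF (Ap gaml dbl)
open Pool.Agent.MWGN (nn Gz E0 P0 A0 Tau gh)

/-- DDC (easy-medium).  Doubled letters.
Proof.  (1) Induction on `u`: `cc` commutes with `X X` (`Gz.c` with `0 ↦ [c]`, `1 ↦ X`).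
(2) Induction on `u`: `dbl (c :: u) = c c dbl u ~ c c c c dbl u dbl u` (`x^2 ~ x^4`, induction) `~
cc dbl u cc dbl u` (part (1) with `X = [c]`).  (3) Induction on `u`, `u = c :: u'`: `A c B ~ A cc B`
because `c ∈ A` (`gm`), then the induction assumption with `A ++ [c, c]`. -/
def DdcStmt : Prop := ∀ β : FIC, Gz β → ∀ (u X A B : List ℕ),
  RR β (A ++ (dbl u ++ (X ++ (X ++ B)))) (A ++ (X ++ (X ++ (dbl u ++ B)))) ∧
  RR β (A ++ (dbl u ++ B)) (A ++ (dbl u ++ (dbl u ++ B))) ∧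
  ((∀ c ∈ u, c ∈ A) → RR β (A ++ (u ++ B)) (A ++ (dbl u ++ B)))

/-- FSF (medium-hard, uses MWGN.FSP, TEX, DDC).  **Fill in the special form** (replaces the withdrawn
row INS).
Proof.  First: for all `τ, r` (`Tau`), all `s` and all words `ws X B S L C (fun _ => false) τ r ~
ws X B S L C s τ r`: if `s i = true` for some `i < r` by FSP both are `~ ws .. (fun _ => true)` (FBs);
otherwise they are equal.  Let `z_0, .., z_(k-1)` be the letters of `(v ++ v').filter Q`,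
`v ++ v' = D_0 z_0 D_1 .. z_(k-1) D_k`.  An occurrence of `c` behind the first one may be replaced by
`c c` and back (`gm`), and `c c` commutes with `dbl D` (DDC (1)): so an inserted `c` may be moved through
doubled letters (not through `z_i`).  `k = 0`: `c c (dbl v) (dbl v') c ~ c c c c (dbl v) (dbl v') c ~
c c (dbl v) c c (dbl v') c`.  `k ≥ 1`, `r = k - 1`: TEX: `dbl D_k ++ q` or `q` `= τ.flatMap (S i ++ [z_i]) ++ R`
(`z_i ∈ q`).  The word is `~ p (dbl D_0) c c z_0 (dbl D_1) z_1 .. z_(k-1) c (dbl D_k) q =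
p (dbl D_0) (ws [c] (dbl D_k) S [z_i] (dbl D_(i+1)) (fun _ => false) τ r) R` up to `dbl D ~ dbl D dbl D`
(DDC (2)).  The place of the insertion is in `D_0` (then it is trivial: `c c ~ c c c c`, commute), in
`D_k` (trivial: `dbl D_k c ~ c dbl D_k`, double this `c`), or in `D_(j+1)`, `j < r` : apply the first
remark with `s i = decide (i = j)`, this inserts `c c` behind `dbl D_(j+1)`, move it to its place, `c c ~ c`. -/
def FsfStmt : Prop := ∀ β : FIC, Gz β → FBs β → FS β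

/-- VVD (easy-medium, uses DDC).  Doubling of an image.
Proof.  `ψ = psi e`.  `v' = v.flatMap ψ`, `A' = A.flatMap ψ`.  `A' v' ~ A' (dbl v')`: letter by letter
(induction on `v`, with a longer `A`): for `c = e` nothing; for a content `c` the image is `[c, c]` and
`c c ~ c c c c`; otherwise `c ∈ A`, so `c ∈ A'` and `c ~ cc` by `gm`.  Then
`dbl v' ~ dbl v' ++ dbl v'` (DDC) and back: `A' dbl v' dbl v' ~ A' v' dbl v' ~ A' v' v'` (the second
time all letters of `v'` occur in front, DDC (3)). -/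
def VvdStmt : Prop := ∀ β : FIC, Gz β → ∀ (e : ℕ) (A v B : List ℕ),
  (∀ c ∈ v, c % 5 = 4 ∨ c = e ∨ c ∈ A) →
    RR β ((A ++ (v ++ B)).flatMap (psi e)) ((A ++ (v ++ (v ++ B))).flatMap (psi e))

/-- PST (easy-medium).  Counting in the image under `psi e` (`e` is 0 or 1).
Proof.  Inductions on `W`; `psi e` maps a letter `q` which is not a content and not `e` to `[q]`, and
`q` is in no other image. -/
def PstStmt : Prop := ∀ (e : ℕ) (W : List ℕ), e ≤ 1 →
  (∀ c, c ≠ e → c % 5 ≠ 4 → (W.flatMap (psi e)).count c = W.count c) ∧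
  (∀ c, c % 5 = 4 → (W.flatMap (psi e)).count c = 2 * W.count c) ∧
  (∀ q, q ≠ e → q % 5 ≠ 4 → pre (W.flatMap (psi e)) q = (pre W q).flatMap (psi e)) ∧
  (∀ c q, c ≠ e → q ≠ e → c % 5 ≠ 4 → q % 5 ≠ 4 → nn (W.flatMap (psi e)) c q = nn W c q) ∧
  (∀ c q, q ≠ e → c % 5 = 4 → q % 5 ≠ 4 → nn (W.flatMap (psi e)) c q = 2 * nn W c q) ∧
  (∀ F : ℕ → Bool, (W.flatMap (psi e)).filter F = (W.filter F).flatMap (psi e))

/-- PRC (medium).  The first parts of the word `w1`.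
Proof.  Direct: `MWK.pre_append`, `MWK.pre_append_mem`, `MWK.pre_cons_self`; `pin`, `sep`, `con` are
injective with different images.  In `cp s m` (`i < m`): `pre (cp s m ++ R) (pin (s + i)) = cp s i`
(induction on `m` with `List.range_succ`).  `wb` contains no `sep`; `pre (tl σ) (sep k) = tl (pre σ k)`
for `k ∈ σ` (induction on `σ`). -/
def PrcStmt : Prop := ∀ (σ : List ℕ) (m : ℕ),
  pre (wd σ m false false) (pin 0) = [1, con 0, con 0] ∧
  (∀ i < m, pre (wd σ m false false) (pin (1 + i)) = 1 :: con 0 :: con 0 :: pin 0 :: cp 1 i) ∧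
  pre (wd σ m false false) (pin (m + 1)) = N0 m ++ [0, con (m + 1), con (m + 1)] ∧
  (∀ i ≤ m, pre (wd σ m false false) (pin (m + 2 + i)) =
    N0 m ++ (0 :: con (m + 1) :: con (m + 1) :: pin (m + 1) :: 1 :: cp (m + 2) i)) ∧
  (σ ≠ [] → pre (wd σ m false false) (t1 σ) = wb m false false) ∧
  (∀ k ∈ σ, pre (wd σ m false false) (sep k) = wb m false false ++ tl (pre σ k))

/-- WFC (medium, uses PRC).  The common facts for `w1`.
Proof.  `wb` contains `pin k` (`k ≤ 2m+2`) once and no `sep`, `tl σ` contains `pin k` and `sep k` once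
(`σ` has no repetitions, `me`).  `al`: all letters of `wb`, `tl σ`.  `ps`, `pt`, `pa`, `pb`, `ss`: PRC:
`nn w (pin j) (sep k) = 1 + (tl (pre σ k)).count (pin j)`, the last count is 1 if `j ∈ pre σ k` and 0
otherwise (`j ∈ pre σ k` implies `k ∉ pre σ j`).  `po`: PRC: `pin j` is in the list given for `pin k`
if `j < k` (cases `k ≤ m`, `k = m + 1`, `k ≥ m + 2`). -/
def WfcStmt : Prop := ∀ (σ τ : List ℕ) (m : ℕ), Sg σ τ m → Fc σ m (wd σ m false false)

/-- WXY (medium, uses PRC).  The facts about `x`, `y` and contents for `w1`.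
Proof.  Direct from PRC and counting. -/
def WxyStmt : Prop := ∀ (σ τ : List ℕ) (m : ℕ), Sg σ τ m →
  ((wd σ m false false).count 0 = 2 ∧ nn (wd σ m false false) 0 (t1 σ) = 2 ∧
    nn (wd σ m false false) 0 (pin (m + 1)) = 1) ∧
  ((wd σ m false false).count 1 = 2 ∧ nn (wd σ m false false) 1 (t1 σ) = 2 ∧
    nn (wd σ m false false) 1 (pin 0) = 1) ∧
  (∀ k ≤ 2 * m + 1, (wd σ m false false).count (con k) = 2 ∧
    nn (wd σ m false false) (con k) (t1 σ) = 2) ∧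
  (∀ k ≤ m, nn (wd σ m false false) (con k) (pin (m + 1)) = 2) ∧
  (∀ c ∈ wd σ m false false, c % 5 = 4 → ∃ k ≤ 2 * m + 1, c = con k)

/-- LEV (medium).  `P0` implies the light end identity with one more light.
Proof.  First `k0 → P0`: in `k0` substitute `0 ↦ [0, 0]`, `2 ↦ []`: `x^2 y x^2 s y ~ y x^4 s y ~ y x^2 s y`;
put `x t` in front: `x t x^2 y x^2 s y ~ x t y x^2 s y`, and `x^2 ~ x` behind the first `x` (`gm`), rename.
Now let `P0` hold.  Letters `x = 0`, `L i = pin i`, `C i = con i`, `S i = sep i` (`i ≤ m`), `T = tll S L τ`,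
`t = lw4 L C m ++ [C m, C m, C m, C m]`, so the word is `x t L_m x T`.  `P0` (`0 ↦ [x]`, `2 ↦ t`,
`1 ↦ [L m]`, `3 ↦` the part of `T` up to the next `L m`; `m ∈ τ`): `x t L_m x .. ~ x t x L_m x ..`.  `BtS`
with `p = []`, `v = (range m).flatMap [C i, C i, L i] ++ [C m, C m]`, `Q c = (c % 5 = 2)`: `dq Q v = t`
and `x t x .. ~ x x t x ..`.  `P0` with `2 ↦ x t`: `x x t x L_m x T ~ x x t L_m x T`.  Result
`x t L_m x T ~ x x t L_m x T`; this is the assumption of LER for these letters; LER gives `LE`. -/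
def LevStmt : Prop := ∀ β : FIC, Gz β → ∀ (m : ℕ) (τ : List ℕ), Tau τ m → BtS β m →
  (P0 β ∨ k0 β) →
    RR β (0 :: (lw4 pin con (m + 1) ++ (0 :: tll sep pin τ)))
      (0 :: 0 :: (lw4 pin con (m + 1) ++ (0 :: tll sep pin τ)))

/-- LER (medium).  Renaming.
Proof.  `RR.sub f` with `f x = X`, `f (S i) = S' i`, `f (L i) = L' i`, `f (C i) = C' i` (`i ≤ m`; the
names are different, e.g. `f c = if c = x then X else if h : ∃ i ≤ m, c = S i then S' h.choose ..`).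
The image of `[C i, C i, C i, C i, L i]` is `C'^4 L'`; `C'^4 ~ C'^2` (`0 0 ~ 0 0 0`) in every context,
so the image of `lw4` is equivalent to `lw L' C' (m + 1)` (induction on `k` for `lw4 .. k`). -/
def LerStmt : Prop := ∀ β : FIC, Gz β → ∀ (m : ℕ) (τ : List ℕ), Tau τ m →
  ∀ (x : ℕ) (S L C : ℕ → ℕ), (x :: ((List.range (m + 1)).map S ++ ((List.range (m + 1)).map L ++
    (List.range (m + 1)).map C))).Nodup →
      RR β (x :: (lw4 L C (m + 1) ++ (x :: tll S L τ)))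
        (x :: x :: (lw4 L C (m + 1) ++ (x :: tll S L τ))) → LE β τ m

/-- ORD (medium, uses MWGN.OLR).  Order of two light letters.
Proof.  By OLR, `MWF.SIM`, `MWF.CTT` the word `w'` satisfies the same conditions (all letters
`a, b` are different from `s, t` because of the counts).  `RR.filter (· ∈ {a, b, s, t})`: the filtered
word of `w` is `[a, b]` or `[b, a]`, then `s`, then `a^i`, then `t`, then `b^j`, `i, j ≥ 1`: in front
of `s` there is one `a` and one `b` (and no `t`), between `s` and `t` no `b` (`nn w b s = 1 = nn w b t`),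
behind `t` no `a`.  The same for `w'`.  `a ∈ pre w b` iff the first two letters are `[a, b]`.  If
`w`, `w'` differ: `gm` (`a u a^i ~ a u a`) gives `a b s a t b ~ b a s a t b`, rename (`RR.sub`): `k0` or
its symmetric. -/
def OrdStmt : Prop := ∀ β : FIC, Gz β → ¬ E0 β → ¬ k0 β → ∀ w w' : List ℕ, RR β w w' →
  ∀ a b s t : ℕ, w.count s = 1 → w.count t = 1 → s ≠ t → a ≠ b → 2 ≤ w.count a → 2 ≤ w.count b →
    nn w s t = 1 → nn w a s = 1 → nn w b s = 1 → nn w b t = 1 → nn w a t = w.count a →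
      (a ∈ pre w b ↔ a ∈ pre w' b)

/-- FAC (medium, uses WFC, WXY, PST, ORD, MWGN.OLR).  **The common facts are kept.**
Proof.  Let `w = ψ w1`, `w' = ψ W`, `ψ = psi e`; `RR β w w'` (symmetric).  By PST all numbers for letters
which are not contents and not `e` are the same for `W` and `ψ W`, and for `w1` and `ψ w1`.
`al`: for `c ∈ W`, `c ≠ e`: `c ∈ ψ W`, so `c ∈ ψ w1` (`MWF.CTT`), so `c ∈ w1` (each letter of `psi e d` is
`d`).  `s1`: `MWF.SIM`.  `p2`: not 0 by CTT, not 1 by SIM.  `ps`, `pt`, `pa`, `pb`, `ss`: OLR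
(`c ≠ s` is clear; for `ss`: `j ∈ pre σ k` implies `j ≠ k`; `t1 σ = sep h`, `h = σ.headD 0 ≤ 2m+2`).
`po`: let `j < k`; `j ∈ pre σ k`: ORD with `a = pin j`, `b = pin k`, `s = sep j`, `t = sep k`;
`k ∈ pre σ j`: ORD with `a = pin k`, `b = pin j`, `s = sep k`, `t = sep j`: `pin k ∉ pre w (pin j)`, so
`pin k ∉ pre w' (pin j)`, then `MWK.pre_total`.  The last part: OLR for `con k` (PST: numbers are
doubled). -/
def FacStmt : Prop := ∀ β : FIC, Gz β → ¬ E0 β → ¬ k0 β → ∀ (σ τ : List ℕ) (m e : ℕ), e ≤ 1 →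
  Sg σ τ m → ∀ W : List ℕ, KK β σ m e W →
    Fc σ m W ∧ (∀ c ∈ W, c % 5 = 4 → (∃ k ≤ 2 * m + 1, c = con k) ∧ nn W c (t1 σ) = W.count c)

/-- XFS (medium, uses WXY, PST, FAC, MWGN.OLR, MWGN.TLR).  The first facts about `x` and `y`.
Proof.  (1) `e = 1`.  `2 ≤ count 0`: CTT, SIM.  All `x` in front of `t1 σ`: OLR, third part.  Suppose
`nn W 0 (pin (m+1)) = 0`: TLR, second part, for `w = ψ W`, `w' = ψ w1`, `c = 0`, `z = pin (m+1)`,
`s = t1 σ` (`nn W z s = 1` is `Fc.pt`) gives `nn w1 0 (pin (m+1)) = 0`, but it is 1.  (2) `e = 0`: the same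
for `1` and `pin 0`.  (3) `e = 0`: for a content `c = con k`, `k ≤ m`: `c ∈ W` (CTT) and suppose
`nn W c (pin (m+1)) = 0`: TLR as before, contradiction.  (4) if `nn W c (pin (m+1)) < W.count c` then
`A0 β`: TLR, first part, for `w = ψ w1`, `w' = ψ W`. -/
def XfsStmt : Prop := ∀ β : FIC, Gz β → ¬ E0 β → ¬ P0 β → ¬ k0 β → ∀ (σ τ : List ℕ) (m : ℕ),
  Sg σ τ m → ∀ W : List ℕ,
    (KK β σ m 1 W → 2 ≤ W.count 0 ∧ nn W 0 (t1 σ) = W.count 0 ∧ 1 ≤ nn W 0 (pin (m + 1))) ∧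
    (KK β σ m 0 W → (2 ≤ W.count 1 ∧ nn W 1 (t1 σ) = W.count 1 ∧ 1 ≤ nn W 1 (pin 0)) ∧
      ∀ k ≤ m, 1 ≤ nn W (con k) (pin (m + 1)) ∧
        (nn W (con k) (pin (m + 1)) < W.count (con k) → A0 β))

/-- TEX (easy-medium).  Tails: order of first occurrences.
Proof.  More general: for a duplicate free list `I` of indices such that `z` is injective on `I` and
`z i ∈ q` for `i ∈ I` there are `τ` (a permutation of `I`), `S`, `r` with
`q = τ.flatMap (fun i => S i ++ [z i]) ++ r`.  Induction on `q` (generalize `I`).  `I = []`: `τ = []`.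
`q = c :: q'`.  If `c = z i`, `i ∈ I`: induction for `I.erase i` (`z j ∈ q'` for `j ≠ i`), `τ = i :: τ'`,
`S i = []`.  Otherwise induction for `I`: `τ' = i :: τ''`, change `S i` to `c :: S i` (`i ∉ τ''`).
Then `I = range (k + 1)`. -/
def TexStmt : Prop := ∀ (k : ℕ) (z : ℕ → ℕ) (q : List ℕ),
  (∀ i ≤ k, ∀ j ≤ k, z i = z j → i = j) → (∀ i ≤ k, z i ∈ q) →
    ∃ (τ : List ℕ) (S : ℕ → List ℕ) (r : List ℕ), Tau τ k ∧
      q = τ.flatMap (fun i => S i ++ [z i]) ++ r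

/-- BTS (medium, uses TEX, DDC).  The special form with at most `n` lights.
Proof.  Let `z_0, .., z_(k-1)` be the letters of `v.filter Q`, `k ≤ n`, `v = v_0 z_0 v_1 .. z_(k-1) v_k`,
`dq Q v = dbl v_0 ++ z_0 :: dbl v_1 ++ .. ++ z_(k-1) :: dbl v_k` (induction on `v`).  The last part:
`dbl v_k x ~ x dbl v_k`, since `x` occurs in front (`x ~ x x`, DDC (1), back).  `k = 0`: `p x dbl v_0 x q
~ p x dbl v_0 x x q ~ p x x x dbl v_0 q ~ p x x x x dbl v_0 q ~ p x x dbl v_0 x q`.  `k ≥ 1`: `dbl v_i ~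
dbl v_i dbl v_i` (DDC (2)); by TEX (`z_i ∈ q`, the `z_i` are different)
`dbl v_k ++ q = τ.flatMap (S i ++ [z_i]) ++ r`; apply `LE β τ (k-1)` with `X = [x]`, `C i = dbl v_i`,
`L i = [z_i]`, `p` in front and `r` behind; back. -/
def BtsStmt : Prop := ∀ β : FIC, Gz β → ∀ n : ℕ,
  (∀ k < n, ∀ τ : List ℕ, Tau τ k → LE β τ k) → BtS β n

/-- RIG (easy-medium, uses DDC, LER).  The second `x` is in front of the last light.
Proof.  `V := dbl A ++ x :: (dq Q v ++ x :: R)`.  `BtS`: `V ~ dbl A x x (dq Q v) x R ~ x x (dbl A) (dq Q v) x R`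
(DDC (1)).  So `x x V ~ x x (dbl A) x x (dq Q v) x R ~ x x x x (dbl A) .. ~ x x (dbl A) (dq Q v) x R ~ V`.
With `V ~ V1 = x lw4 x T`: `V1 ~ x x V1 = x x x lw4 x T ~ x x lw4 x T`.  LER. -/
def RigStmt : Prop := ∀ β : FIC, Gz β → ∀ (m : ℕ) (τ : List ℕ), Tau τ m → BtS β m →
  ∀ (x : ℕ) (S L C : ℕ → ℕ), (x :: ((List.range (m + 1)).map S ++ ((List.range (m + 1)).map L ++
    (List.range (m + 1)).map C))).Nodup →
      ∀ (Q : ℕ → Bool) (A v R : List ℕ), (v.filter Q).length ≤ m → (v.filter Q).Nodup →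
        (∀ c ∈ v, Q c = true → c ∈ R) →
          RR β (dbl A ++ x :: (dq Q v ++ x :: R)) (x :: (lw4 L C (m + 1) ++ (x :: tll S L τ))) →
            LE β τ m

/-- the letters of the `x`-copy -/
def Fx (m : ℕ) : ℕ → Bool := fun c => decide (c = 0 ∨ (c % 5 = 4 ∧ con (m + 1) ≤ c) ∨
  (c % 5 = 2 ∧ pin (m + 2) ≤ c) ∨ (c % 5 = 3 ∧ sep (m + 2) ≤ c))

/-- the letters of the `y`-copy -/
def Fu (m : ℕ) : ℕ → Bool := fun c => decide (c = 1 ∨ (c % 5 = 4 ∧ c ≤ con m) ∨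
  (c % 5 = 2 ∧ pin 1 ≤ c ∧ c ≤ pin (m + 1)) ∨ (c % 5 = 3 ∧ sep 1 ≤ c ∧ c ≤ sep (m + 1)))

/-- the letters of the twin copy -/
def Fz (m : ℕ) : ℕ → Bool := fun c => decide (c = 1 ∨ (c % 5 = 4 ∧ c ≤ con m) ∨
  (c % 5 = 2 ∧ ((pin 1 ≤ c ∧ c ≤ pin m) ∨ c = pin (m + 2))) ∨
  (c % 5 = 3 ∧ ((sep 1 ≤ c ∧ c ≤ sep m) ∨ c = sep (m + 2))))

/-- renaming of the twin -/
def rz (m c : ℕ) : ℕ := if c = pin (m + 2) then pin (m + 1) else
  if c = sep (m + 2) then sep (m + 1) else c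

/-- CPX (medium).  The `x`-copy in `w1` and `w4`.
Proof.  Direct.  `psi 1` deletes `y` and doubles the contents.  Only `0`, `con (m+1)` (4 times), from
`cp (m+2) m`: `pin (m+2+i), con (m+2+i)` (4 times), then `pin (2m+2)`, `0` and the tails with
`k ≥ m + 2` stay: `Sg.f3`: `(tl σ).filter = tl (σ.filter (m+2 ≤ ·)) = tll .. τ`.  Regroup
`C 0^4, (L i, C (i+1)^4)_(i < m), L m = lw4 L C (m+1)` (induction on `m`). -/
def CpxStmt : Prop := ∀ (σ τ : List ℕ) (m : ℕ), Sg σ τ m → ∀ d : Bool,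
  ((wd σ m d false).flatMap (psi 1)).filter (Fx m) = (if d then [0, 0] else [0]) ++
    (lw4 (fun i => pin (i + (m + 2))) (fun i => con (i + (m + 1))) (m + 1) ++
      (0 :: tll (fun i => sep (i + (m + 2))) (fun i => pin (i + (m + 2))) τ))

/-- CPY (medium).  The `y`-copy and the twin copy in `w1`.
Proof.  Direct, as CPX: `psi 0` deletes `x`; `Fu` keeps `1`, `con 0` (4 times), from `cp 1 m`:
`pin (1+i), con (1+i)` (4 times), `pin (m+1)`, `1` and the tails `1 ≤ k ≤ m+1` (`Sg.f1`).  `Fz` keeps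
`1`, `con 0`, `cp 1 m` (contents 4 times), then `1`, then `pin (m+2)` (for `m = 0` this is
`pin (2m+2)`, for `m ≥ 1` it is the first letter of `cp (m+2) m`), and the tails with `1 ≤ k ≤ m` or
`k = m + 2` (`Sg.f2`); rename. -/
def CpyStmt : Prop := ∀ (σ τ : List ℕ) (m : ℕ), Sg σ τ m → (∀ i ∈ τ, i ≤ m) →
  ((wd σ m false false).flatMap (psi 0)).filter (Fu m) =
    1 :: (lw4 (fun i => pin (i + 1)) con (m + 1) ++
      (1 :: tll (fun i => sep (i + 1)) (fun i => pin (i + 1)) τ)) ∧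
  (((wd σ m false false).flatMap (psi 0)).filter (Fz m)).map (rz m) =
    1 :: (lw4 (fun i => pin (i + 1)) con m ++ ([con m, con m, con m, con m] ++
      (1 :: pin (m + 1) :: tll (fun i => sep (i + 1)) (fun i => pin (i + 1)) τ)))

/-- RGX (medium, uses RIG, CPX, PST).  **Rigidity of `x`.**
Proof.  `W' := W.filter (Fx m)`, `(ψ W).filter (Fx m) = ψ W'` (PST), `RR.filter` and CPX (`d = false`):
`RR β (ψ W') (0 :: lw4 .. )`.  `W' = A ++ 0 :: (v ++ 0 :: R)` with `0 ∉ A`, `0 ∉ v` (`2 ≤ count 0`).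
`A` contains only contents: `pin (m+1)` is behind the first `0`, so by `Fc.po` the pins
`k ≥ m + 2` are also behind it; `sep k` is not in front of `t1 σ` (`Fc.ss`), `0` is in front of it.
So `ψ A = dbl A`.  `ψ v = dq Q v`, `Q c := decide (c % 5 ≠ 4)` (`1 ∉ v`: `Fx`), `ψ R = R'`.  `v.filter Q`:
`v` is in front of the second `0`, which is in front of `t1 σ` and of the first `pin (2m+2)`
(assumption `2 ≤ nn`): it contains no `sep`, no `pin (2m+2)`, the other pins at most once (`Fc.pt`): so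
`v.filter Q` is duplicate free with letters `pin (m+2+i)`, `i < m`: length `≤ m`.  These pins occur
again in `R` (`Fc.p2`; `A` and `v` contain each at most once together).  RIG (the names are
different). -/
def RgxStmt : Prop := ∀ β : FIC, Gz β → ∀ (σ τ : List ℕ) (m : ℕ), Tau τ m → Sg σ τ m → BtS β m →
  ∀ W : List ℕ, KK β σ m 1 W → Fc σ m W → 2 ≤ W.count 0 → nn W 0 (t1 σ) = W.count 0 →
    1 ≤ nn W 0 (pin (m + 1)) → 2 ≤ nn W 0 (pin (2 * m + 2)) → LE β τ m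

/-- RGY (medium, uses RIG, CPY, PST).  **Rigidity of `y`, first part.**
Proof.  As RGX with `Fu m`, `ψ = psi 0`, the letter `1`: `A` contains no pin because `1` is in front
of `pin 0`; the lights in `v` are `pin (i+1)`, `i < m`, because the second `1` is in front of
`pin (m+1)`. -/
def RgyStmt : Prop := ∀ β : FIC, Gz β → ∀ (σ τ : List ℕ) (m : ℕ), Tau τ m → Sg σ τ m → BtS β m →
  ∀ W : List ℕ, KK β σ m 0 W → Fc σ m W → 2 ≤ W.count 1 → nn W 1 (t1 σ) = W.count 1 →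
    1 ≤ nn W 1 (pin 0) → 2 ≤ nn W 1 (pin (m + 1)) → LE β τ m

/-- the part of `W` from the first `q` on -/
def sf (W : List ℕ) (q : ℕ) : List ℕ := W.drop (pre W q).length

/-- TNF (medium, uses MWGN.SRT).  Normal form of the tails.
Proof.  `W = pre W (t1 σ) ++ sf W (t1 σ)`.  Let `l` be the filtered list.  SRT with
`M = tl (σ.filter P)` (duplicate free).  Letters of `l` are in `M` (`Sg.me`).  Order: let `l = u ++ v`,
`d ∈ u`, `c` before `d` in `M`.  Case `c = sep k`, `d = pin k`: the only `pin k` in front of `sep k` is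
in front of `t1 σ` (`ps`, `pt`), so `sep k ∈ u`, `sep k ∉ v` (count 1).  Case `c ∈ {sep j, pin j}`,
`d ∈ {sep k, pin k}`, `j ∈ pre σ k`: `sep k ∈ u` (as before) and all `pin j` and `sep j` are in front of
`sep k` (`pa`, `ss`).  So `l = (σ.filter P).flatMap (fun k => sep k :: replicate (e k) (pin k))` with
`e k = W.count (pin k) - 1 ≥ 1`; `gm` (`pin k ∈ A`) makes the exponents 1 (induction on an initial
part). -/
def TnfStmt : Prop := ∀ β : FIC, Gz β → ∀ (σ τ : List ℕ) (m : ℕ), Sg σ τ m → ∀ W : List ℕ,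
  Fc σ m W → ∀ (P : ℕ → Bool) (A : List ℕ), (∀ k ≤ 2 * m + 2, P k = true → pin k ∈ A) →
    RR β (A ++ (sf W (t1 σ)).filter (fun c => decide (∃ k, k ≤ 2 * m + 2 ∧ P k = true ∧
      (c = sep k ∨ c = pin k)))) (A ++ tl (σ.filter P))

/-- RGC (medium, uses DDC).  Core of the comparison with the twin.  (New statement with `FS`.)
Proof.  `G = []`: equal.  Otherwise `A0 β`.  Let `X = dbl G`; `X ~ X X` (DDC (2)) in every context.
(i) `(dq Q P) z X R ~ (dq Q P) X z X R`: insert letter by letter: let `G = g1 ++ c :: g2`, `v0` the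
letters of `G` inserted already (`dq Q (P ++ v0) = dq Q P ++ dbl v0`): `P = P1 ++ c :: P2`, so
`dq Q (P ++ v0) = dq Q P1 ++ c :: c :: dq Q (P2 ++ v0)` (`Q c = false`); `FS` with `p = dq Q P1`,
`v = P2 ++ v0`, `v' = z :: g1`, `q = c :: (dbl g2 ++ R)` inserts `c` in front of `z`; `c ~ c c` (`c` occurs
in front): `dq Q (P ++ (v0 ++ [c]))`.  (ii) `(dq Q P) X z R ~ (dq Q P) X X z R ~ (dq Q P) X X z X R ~
(dq Q P) X z X R`: `A0` with `0 ↦ X`, `1 ↦ [z]`, `2 ↦` the part of `R` in front of a `z`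
(`A0`: `x x z s z ~ x x z x s z`; `z ∈ R`). -/
def RgcStmt : Prop := ∀ β : FIC, Gz β → FS β → ∀ (Q : ℕ → Bool) (P G R : List ℕ) (z : ℕ),
  (G ≠ [] → A0 β) → (∀ c ∈ G, c ∈ P ∧ Q c = false) → Q z = true → ((P ++ [z]).filter Q).Nodup →
    (∀ c ∈ P, Q c = true → c ∈ R) → z ∈ R →
      RR β (dq Q P ++ z :: (dbl G ++ R)) (dq Q P ++ (dbl G ++ z :: R))

/-- SPZ (medium).  The two copies in a word where `y` is missing between `z` and its twin.
Proof.  `z = pin (m+1)`, `z' = pin (m+2)`.  `W = P' ++ z :: (G' ++ z' :: (Q' ++ sf W (t1 σ)))` with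
`P' = pre W z`, `P' ++ z :: G' = pre W z'` (`Fc.po`), `pre W (t1 σ) = P' ++ z :: (G' ++ z' :: Q')` (`pt`).
`P = P'.filter (Fu m)`, `G`, `Q` in the same way.  In `pre W (t1 σ)` there is no `sep` (`ss`), every pin
once (`pt`); the pins `1 .. m` are in `P'` (`po`).  So on `P'`, `G'`, `Q'` the filters `Fu` and `Fz`
give the same (letters `1`, contents, pins `1 .. m`), `rz` changes nothing there; `G`, `Q` contain only
`1` and contents; `1 ∉ G`: `nn W 1 z ≥ nn W 1 (pin 0) ≥ 1` and `nn W 1 z' ≤ 1`, so `1 ∉ G'`, and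
`P'.count 1 = 1`.  `1 ∈ Q` since `2 ≤ W.count 1 = nn W 1 (t1 σ)`.  In `sf W (t1 σ)` there is no `1` and no
content (assumptions), so `Fu`, `Fz` keep there the letters `sep k`, `pin k` with `P1 k` resp. `P2 k`. -/
def SpzStmt : Prop := ∀ (σ τ : List ℕ) (m : ℕ), Sg σ τ m → ∀ W : List ℕ, Fc σ m W →
  (∀ c ∈ W, c % 5 = 4 → nn W c (t1 σ) = W.count c) → 2 ≤ W.count 1 → nn W 1 (t1 σ) = W.count 1 →
    1 ≤ nn W 1 (pin 0) → nn W 1 (pin (m + 2)) ≤ 1 → ∃ P G Q : List ℕ,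
      W.filter (Fu m) = P ++ pin (m + 1) :: (G ++ (Q ++ (sf W (t1 σ)).filter (fun c =>
        decide (∃ k, k ≤ 2 * m + 2 ∧ decide (1 ≤ k ∧ k ≤ m + 1) = true ∧ (c = sep k ∨ c = pin k))))) ∧
      W.filter (Fz m) = P ++ (G ++ pin (m + 2) :: (Q ++ (sf W (t1 σ)).filter (fun c =>
        decide (∃ k, k ≤ 2 * m + 2 ∧ decide ((1 ≤ k ∧ k ≤ m) ∨ k = m + 2) = true ∧
          (c = sep k ∨ c = pin k))))) ∧
      (∀ c ∈ P, c = 1 ∨ (∃ k ≤ m, c = con k) ∨ ∃ i < m, c = pin (i + 1)) ∧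
      (∀ i < m, P.count (pin (i + 1)) = 1) ∧ P.count 1 = 1 ∧
      (∀ c ∈ G, ∃ k ≤ m, c = con k ∧ nn W c (pin (m + 1)) < W.count c) ∧
      (∀ c ∈ Q, c = 1 ∨ ∃ k ≤ m, c = con k) ∧ 1 ∈ Q ∧
      (∀ k ≤ m, 1 ≤ nn W (con k) (pin (m + 1)) → con k ∈ P)

/-- RGZ (medium-hard, uses SPZ, TNF, RGC, CPY, PST, XFS, LER, DDC).  **Rigidity of `y`, second part.**
Proof.  Let `T = tll (sep (·+1)) (pin (·+1)) τ`, `ψ = psi 0`, `z = pin (m+1)`.
`U1 := (ψ W).filter (Fu m) = ψ (W.filter (Fu m))` (PST), by SPZ `= ψP z dbl G ψQ (..)`, by TNF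
(`Sg.f1`: `tl (τ.map (·+1)) = T`; the pins `1 .. m+1` occur in front) `~ ψP z dbl G ψQ T`.  In the same
way (`Sg.f2`, then `RR.sub (fun c => [rz m c])`; `rz` changes nothing in `P, G, Q`)
`U2 := ((ψ W).filter (Fz m)).map (rz m) ~ ψP dbl G z ψQ T`.  By RGC `U1 ~ U2`: XFS (4): `G ≠ []` gives `A0`;
XFS (3) and SPZ: every `con k`, `k ≤ m`, is in `P`, so `ψP` contains it doubled; `z ∈ T` (`m ∈ τ`);
letters of `ψP`: contents doubled, pins `i + 1` again in `T`, `1 ∈ Q`.  By CPY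
`U1 ~ V1 = 1 lw4 1 T` and `U2 ~ V2 = 1 (lw4 L C m) C_m^4 1 z T` (`KK` and `RR.filter`, `RR.sub`).
`BtS` for `V2` (`p = []`, `x = 1`, `v = (range m).flatMap [C i, C i, L i] ++ [C m, C m]`, `Q c = (c % 5 = 2)`,
lights `pin (i+1)`, `i < m`, again in `T`): `V2 ~ 1 V2`.  So `V1 ~ V2 ~ 1 V2 ~ 1 V1`, this is the
assumption of LER. -/
def RgzStmt : Prop := ∀ β : FIC, Gz β → ¬ E0 β → ¬ P0 β → ¬ k0 β → FS β → ∀ (σ τ : List ℕ) (m : ℕ),
  Tau τ m → Sg σ τ m → BtS β m → ∀ W : List ℕ, KK β σ m 0 W → nn W 1 (pin (m + 2)) ≤ 1 → LE β τ m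

/-- KFB (easy, uses FAC, XFS, RGX, RGY, RGZ, LEV, LER).  Facts of the two classes.
Proof.  `¬ P0`, `¬ k0` by LEV and LER (letters `pin`, `con`, `sep` are different).  FAC, XFS, and
RGX resp. RGY, RGZ (a violated inequality gives `LE`). -/
def KfbStmt : Prop := ∀ β : FIC, Gz β → ¬ E0 β → FS β → ∀ (σ τ : List ℕ) (m : ℕ), Tau τ m →
  Sg σ τ m → BtS β m → ¬ LE β τ m → ∀ W : List ℕ,
    (KK β σ m 1 W → Fb σ m W) ∧ (KK β σ m 0 W → Fy σ m W)

/-- SIG (easy-medium).  Existence of the order of the tails.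
Proof.  `τ = α ++ m :: γ = μ ++ 0 :: ν` (`m, 0 ∈ τ`).  `σ := α.map (·+1) ++ μ.map (·+(m+2)) ++
[m+1, m+2] ++ γ.map (·+1) ++ ν.map (·+(m+2)) ++ [0]`.  `α, γ` have values `< m`, `μ, ν` values in
`1 .. m`. -/
def SigStmt : Prop := ∀ (τ : List ℕ) (m : ℕ), Tau τ m → ∃ σ : List ℕ, Sg σ τ m

end Pool.Agent.MWLE
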