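import Pool.Agent.MWGN.Defs
import Pool.Agent.MWGN.Cov
import Pool.Agent.MWGN.DefsC
import Pool.Agent.MWZ.Defs

/-!
# MWLE: the light end pentagon (definitions)

MP_23468a_al, aperiodic case, world `Gz`: `xyx ≈ xyx^2`, `x^2y^2 ≈ y^2x^2`, `xytxy ≈ yxtxy`, outside
`x^2y ≈ x^2yx`.  Letters: `x = 0`, `y = 1`, light letters `pin k`, simple letters `sep k`, contents
`con k` (the numbers `c` with `c % 5 = 4`).
-/

namespace Pool.Agent.MWLE

open Pool.Agent.Helper14_MV Pool.Agent.Helper2_MV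
open Pool.Agent.MWK (pre Gw)
open Pool.Agent.MWF (Ap gaml dbl)
open Pool.Agent.MWGN (nn Gz E0 P0 A0 Tau gh)

def pin (k : ℕ) : ℕ := 5 * k + 2
def sep (k : ℕ) : ℕ := 5 * k + 3
def con (k : ℕ) : ℕ := 5 * k + 4

/-! ### the identities -/

/-- `C_0^2 L_0 C_1^2 L_1 .. C_(k-1)^2 L_(k-1)` -/
def lw (L C : ℕ → List ℕ) (k : ℕ) : List ℕ := (List.range k).flatMap (fun i => C i ++ (C i ++ L i))

/-- the light end identity `X W X T ≈ X X W X T` with `m + 1` lights, tails in the order `τ` -/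
def LE (β : FIC) (τ : List ℕ) (m : ℕ) : Prop := ∀ (X : List ℕ) (S L C : ℕ → List ℕ),
  RR β (X ++ (lw L C (m + 1) ++ (X ++ τ.flatMap (fun i => S i ++ L i))))
    (X ++ (X ++ (lw L C (m + 1) ++ (X ++ τ.flatMap (fun i => S i ++ L i)))))

/-- fill: `p c^2 w w' c q ≈ p c^2 w c w' c q`, if the letters of `w, w'` occur at least twice -/
def FF (β : FIC) : Prop := ∀ (p w w' q : List ℕ) (c : ℕ),
  (∀ e ∈ w ++ w', 2 ≤ (p ++ c :: c :: (w ++ (w' ++ c :: q))).count e) →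
    RR β (p ++ c :: c :: (w ++ (w' ++ c :: q))) (p ++ c :: c :: (w ++ c :: (w' ++ c :: q)))

/-- the hull identities `FB` of MWGN (part C, row PEF) for all orders -/
def FBs (β : FIC) : Prop := ∀ (r : ℕ) (τ : List ℕ), Tau τ r → MWGN.FB β τ r

/-- the letters with `Q` once, the other ones doubled -/
def dq (Q : ℕ → Bool) (v : List ℕ) : List ℕ := v.flatMap (fun c => if Q c then [c] else [c, c])

/-- special form: at most `n` lights, all other letters doubled -/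
def BtS (β : FIC) (n : ℕ) : Prop := ∀ (Q : ℕ → Bool) (p v q : List ℕ) (x : ℕ),
  (v.filter Q).length ≤ n → (v.filter Q).Nodup → (∀ c ∈ v, Q c = true → c ∈ q) →
    RR β (p ++ x :: (dq Q v ++ x :: q)) (p ++ x :: x :: (dq Q v ++ x :: q))

/-- fill in the special form (single lights with tails behind, other letters doubled) -/
def FS (β : FIC) : Prop := ∀ (Q : ℕ → Bool) (p v v' q : List ℕ) (c : ℕ),
  ((v ++ v').filter Q).Nodup → (∀ e ∈ v ++ v', Q e = true → e ∈ q) →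
    RR β (p ++ c :: c :: (dq Q v ++ (dq Q v' ++ c :: q)))
      (p ++ c :: c :: (dq Q v ++ c :: (dq Q v' ++ c :: q)))

/-- `xytxsy ≈ yxtxsy` -/
def k0 (β : FIC) : Prop := RR β [0, 1, 2, 0, 3, 1] [1, 0, 2, 0, 3, 1]

/-- one letter words -/
def sg (f : ℕ → ℕ) : ℕ → List ℕ := fun i => [f i]

/-- `C_0^4 L_0 C_1^4 L_1 .. C_(k-1)^4 L_(k-1)` with letters -/
def lw4 (L C : ℕ → ℕ) (k : ℕ) : List ℕ :=
  (List.range k).flatMap (fun i => [C i, C i, C i, C i, L i])

/-- tails with letters -/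
def tll (S L : ℕ → ℕ) (τ : List ℕ) : List ℕ := τ.flatMap (fun i => [S i, L i])

/-! ### the words -/

/-- `pin, content, content` with the numbers `s, .., s + k - 1` -/
def cp (s k : ℕ) : List ℕ := (List.range k).flatMap (fun i => [pin (s + i), con (s + i), con (s + i)])

/-- the tails -/
def tl (σ : List ℕ) : List ℕ := σ.flatMap (fun k => [sep k, pin k])

/-- the part in front of the first `x` -/
def N0 (m : ℕ) : List ℕ := 1 :: con 0 :: con 0 :: pin 0 :: cp 1 m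

/-- the part between the first two `x` -/
def Nx (m : ℕ) (g : Bool) : List ℕ := con (m + 1) :: con (m + 1) :: ((if g then [1] else []) ++
  (pin (m + 1) :: 1 :: (cp (m + 2) m ++ [pin (2 * m + 2)])))

/-- the first block: `d`: the first `x` is doubled, `g`: additional `y` in front of `z` -/
def wb (m : ℕ) (d g : Bool) : List ℕ :=
  N0 m ++ ((if d then [0, 0] else [0]) ++ (Nx m g ++ [0]))

/-- the four words: `w1 = wd σ m false false`, `w2 = wd σ m false true`, `w3 = wd σ m true true`,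
`w4 = wd σ m true false` -/
def wd (σ : List ℕ) (m : ℕ) (d g : Bool) : List ℕ := wb m d g ++ tl σ

/-- delete the letter `e`, double the contents -/
def psi (e c : ℕ) : List ℕ := if c = e then [] else if c % 5 = 4 then [c, c] else [c]

/-- equivalent to `w1` after deleting the letter `e` (`e = 1`: class `b`, `e = 0`: class `c`) -/
def KK (β : FIC) (σ : List ℕ) (m e : ℕ) (W : List ℕ) : Prop :=
  RR β (W.flatMap (psi e)) ((wd σ m false false).flatMap (psi e))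

/-- the order of the tails -/
structure Sg (σ τ : List ℕ) (m : ℕ) : Prop where
  nd : σ.Nodup
  me : ∀ k, k ∈ σ ↔ k ≤ 2 * m + 2
  f1 : σ.filter (fun k => decide (1 ≤ k ∧ k ≤ m + 1)) = τ.map (fun i => i + 1)
  f2 : σ.filter (fun k => decide ((1 ≤ k ∧ k ≤ m) ∨ k = m + 2)) =
    τ.map (fun i => if i = m then m + 2 else i + 1)
  f3 : σ.filter (fun k => decide (m + 2 ≤ k)) = τ.map (fun i => i + (m + 2))
  o1 : 1 ∈ pre σ 0
  o2 : m + 1 ∈ pre σ (m + 2)

/-- the first simple letter -/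
def t1 (σ : List ℕ) : ℕ := sep (σ.headD 0)

/-- common facts -/
structure Fc (σ : List ℕ) (m : ℕ) (W : List ℕ) : Prop where
  al : ∀ c ∈ W, c = 0 ∨ c = 1 ∨ c % 5 = 4 ∨ ∃ k ≤ 2 * m + 2, c = pin k ∨ c = sep k
  s1 : ∀ k ≤ 2 * m + 2, W.count (sep k) = 1
  p2 : ∀ k ≤ 2 * m + 2, 2 ≤ W.count (pin k)
  ps : ∀ k ≤ 2 * m + 2, nn W (pin k) (sep k) = 1
  pt : ∀ k ≤ 2 * m + 2, nn W (pin k) (t1 σ) = 1
  pa : ∀ j k, j ≤ 2 * m + 2 → k ≤ 2 * m + 2 → j ∈ pre σ k →
    nn W (pin j) (sep k) = W.count (pin j)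
  pb : ∀ j k, j ≤ 2 * m + 2 → k ≤ 2 * m + 2 → j ∈ pre σ k → nn W (pin k) (sep j) = 1
  ss : ∀ j k, j ≤ 2 * m + 2 → k ≤ 2 * m + 2 → j ∈ pre σ k → nn W (sep j) (sep k) = 1
  po : ∀ j k, j < k → k ≤ 2 * m + 2 → pin j ∈ pre W (pin k)

/-- facts about `x` -/
structure Fb (σ : List ℕ) (m : ℕ) (W : List ℕ) : Prop where
  fc : Fc σ m W
  x2 : 2 ≤ W.count 0
  xt : nn W 0 (t1 σ) = W.count 0
  xp : 1 ≤ nn W 0 (pin (m + 1))
  xl : nn W 0 (pin (2 * m + 2)) ≤ 1

/-- facts about `y` -/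
structure Fy (σ : List ℕ) (m : ℕ) (W : List ℕ) : Prop where
  fc : Fc σ m W
  y2 : 2 ≤ W.count 1
  yt : nn W 1 (t1 σ) = W.count 1
  y0 : 1 ≤ nn W 1 (pin 0)
  y1 : nn W 1 (pin (m + 1)) ≤ 1
  y3 : 2 ≤ nn W 1 (pin (m + 2))

end Pool.Agent.MWLE
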