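import Pool.Agent.Helper54_MWGN.CompC
import Pool.Agent.Helper13_MWLE.AIT
import Pool.Agent.Helper13_MWLE.TEX
import Pool.Agent.Helper15_MWLE.LEV
import Pool.Agent.Helper19_MWLE.BLK
import Pool.Agent.Helper54_MWLE.RGC
import Pool.Agent.Helper1_MWLE.ALE
import Pool.Agent.Helper1_MWLE.CVB
import Pool.Agent.Helper22_MWLE.PRC
import Pool.Agent.Helper23_MWLE.TCR
import Pool.Agent.Helper26_MWLE.LER
import Pool.Agent.Helper2_MWLE.CPX
import Pool.Agent.Helper30_MWLE.WXY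
import Pool.Agent.Helper33_MWLE.XFS
import Pool.Agent.Helper35_MWLE.GFA
import Pool.Agent.Helper36_MWLE.KFB
import Pool.Agent.Helper39_MWLE.CPY
import Pool.Agent.Helper39_MWLE.SIG
import Pool.Agent.Helper3_MWLE.RGY
import Pool.Agent.Helper41_MWLE.RGZ
import Pool.Agent.Helper43_MWLE.YPR
import Pool.Agent.Helper44_MWLE.CLC
import Pool.Agent.Helper45_MWLE.TFW
import Pool.Agent.Helper46_MWLE.AIO
import Pool.Agent.Helper46_MWLE.FSF
import Pool.Agent.Helper49_MWLE.CLB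
import Pool.Agent.Helper52_MWLE.VVD
import Pool.Agent.Helper53_MWLE.ORD
import Pool.Agent.Helper58_MWLE.PST
import Pool.Agent.Helper59_MWLE.GDA
import Pool.Agent.Helper60_MWLE.RGX
import Pool.Agent.Helper62_MWLE.PEN
import Pool.Agent.Helper66_MWLE.GDB
import Pool.Agent.Helper69_MWLE.BTS
import Pool.Agent.Helper75_MWLE.SPZ
import Pool.Agent.Helper76_MWLE.GDC
import Pool.Agent.Helper76_MWLE.LEF
import Pool.Agent.Helper77_MWLE.DDC
import Pool.Agent.Helper80_MWLE.RIG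
import Pool.Agent.Helper81_MWLE.CVA
import Pool.Agent.Helper81_MWLE.TWC
import Pool.Agent.Helper89_MWLE.GFB
import Pool.Agent.Helper92_MWLE.WFC
import Pool.Agent.Helper95_MWLE.FAC
import Pool.Agent.Helper71_MWLE.TNF

/-!
# MWLE: composition (light ends of the gamma world, MP_23468a_al)
-/

namespace Pool.Agent.MWLE.Fin

open Pool.Agent.Helper14_MV Pool.Agent.Helper2_MV Pool.Agent.MWLE

theorem ddc : DdcStmt := MWLE.H77.ddc
theorem tex : TexStmt := MWLE.H13.tex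
theorem fsf : FsfStmt := MWLE.H46.fsf MWGN.Comp.fsp tex ddc
theorem vvd : VvdStmt := MWLE.H52.vvd ddc
theorem pst : PstStmt := MWLE.H58.pst
theorem prc : PrcStmt := MWLE.H22.prc
theorem wfc : WfcStmt := MWLE.H92.wfc prc
theorem wxy : WxyStmt := MWLE.H30.wxy prc
theorem lev : LevStmt := MWLE.H15.lev
theorem ler : LerStmt := MWLE.H26.ler
theorem ord : OrdStmt := MWLE.H53.ord MWGN.Comp.olr
theorem fac : FacStmt := MWLE.H95.fac wfc wxy pst ord MWGN.Comp.olr
theorem xfs : XfsStmt := MWLE.H33.xfs wxy pst fac MWGN.Comp.olr MWGN.Comp.tlr MWGN.Comp.ctt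
  MWGN.Comp.sim
theorem bts : BtsStmt := MWLE.H69.bts
theorem rig : RigStmt := MWLE.H80.rig ddc ler
theorem cpx : CpxStmt := MWLE.H2.cpx
theorem cpy : CpyStmt := MWLE.H39.cpy
theorem rgx : RgxStmt := MWLE.H60.rgx rig cpx pst
theorem rgy : RgyStmt := MWLE.H3.rgy rig cpy pst
theorem tnf : TnfStmt := MWLE.H71.tnf
theorem rgc : RgcStmt := MWLE.H54.rgc ddc
theorem spz : SpzStmt := MWLE.H75.spz
theorem rgz : RgzStmt := MWLE.H41.rgz spz tnf rgc cpy pst xfs fac ler ddc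
theorem kfb : KfbStmt := MWLE.H36.kfb fac xfs rgx rgy rgz lev ler
theorem sig : SigStmt := MWLE.H39.sig
theorem twc : TwcStmt := MWLE.H81T.twc
theorem blk : BlkStmt := MWLE.H19.blk twc
theorem tcr : TcrStmt := MWLE.H23.tcr blk twc
theorem ypr : YprStmt := MWLE.H43.ypr blk twc
theorem gfa : GfaStmt := MWLE.H35.gfa
theorem gfb : GfbStmt := MWLE.H89.gfb
theorem cva : CvaStmt := MWLE.H81C.cva twc tcr gfa
theorem cvb : CvbStmt := MWLE.H1.cvb tcr gfb
theorem gdb : GdbStmt := MWLE.H66.gdb blk cva tcr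
theorem gdc : GdcStmt := MWLE.H76.gdc blk cvb tcr
theorem gda : GdaStmt := MWLE.H59.gda blk cvb ypr
theorem tfw : TfwStmt := MWLE.H45.tfw MWGN.Comp.tlf
theorem clb : ClbStmt := MWLE.H49.clb tfw ddc vvd MWGN.Comp.fsp
theorem clc : ClcStmt := MWLE.H44.clc kfb gdb gdc gda clb vvd fsf
theorem pen : PenStmt := MWLE.H62.pen clc sig cpx ler
theorem ale : AleStmt := MWLE.H1.ale pen bts
theorem aio : AioStmt := MWLE.H46.aio bts
theorem ait : AitStmt := MWLE.H13.ait
theorem lef : LefStmt := MWLE.H76.lef ale aio ait MWGN.Comp.pef MWGN.Comp.ffr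

end Pool.Agent.MWLE.Fin

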