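import Pool.Agent.MWLE.StmtsA

/-!
# MWLE, part B: instances, covering, the pentagon, assembly (rows)

MP_23468a_al.  `W = p ++ ((wd σ m d g).flatMap f ++ q)` is an instance of one of the four words;
`wd σ m d g = wb m d g ++ tl σ`, `wb m d g = N0 m ++ ([0] or [0,0]) ++ Nx m g ++ [0]`.  The rows TWC ..
GDA are pure combinatorics of lists (no identities): only `Fc`, `Fb`, `Fy`, `Sg` and the lemmas on
`pre` in MWK/Defs.lean.
-/

namespace Pool.Agent.MWLE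

open Pool.Agent.Helper14_MV Pool.Agent.Helper2_MV
open Pool.Agent.MWK (pre Gw)
open Pool.Agent.MWF (Ap gaml dbl)
open Pool.Agent.MWGN (nn Gz E0 P0 A0 Tau gh)

/-- TWC (easy-medium).  Multiplicities in the words.
Proof.  Letters of `wb m d g`: `0` (at the first `x` and at the end), `1` (in `N0` and in `Nx`),
`con k` (always adjacent pairs `con k, con k`), `pin k`, `k ≤ 2m+2`; `pin k` occurs again in `tl σ`
because `k ∈ σ`. -/
def TwcStmt : Prop := ∀ (σ τ : List ℕ) (m : ℕ), Sg σ τ m → ∀ d g : Bool,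
  (∀ c ∈ wb m d g, 2 ≤ (wd σ m d g).count c) ∧
  (∀ c ∈ wb m d g, (∀ k, c ≠ pin k) → 2 ≤ (wb m d g).count c) ∧
  (∀ k ≤ 2 * m + 2, pin k ∈ wb m d g) ∧
  (∀ c ∈ wb m d g, c = 0 ∨ c = 1 ∨ (∃ k ≤ 2 * m + 1, c = con k) ∨ ∃ k ≤ 2 * m + 2, c = pin k)

/-- BLK (easy-medium, uses TWC).  The image of the first block.
Proof.  (1) `c` occurs at least twice in `wd`, so a letter `sep k ∈ f c` would occur at least twice in
`W` (`Fc.s1`).  (2) `t1 σ ∉ p`: otherwise `pre W (t1 σ) = pre p (t1 σ)` is a part of `p`, but `c` is in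
it.  `t1 σ = sep h`, `h ≤ 2m+2`, is not in `(wb m d g).flatMap f` by (1).  So
`pre W (t1 σ) = p ++ ((wb m d g).flatMap f ++ ..)` and `Fc.pt`.  (3) the same for a letter `c` which
is not a pin of `wb`: it occurs at least twice in `wb`, so `pin k ∈ f c` gives two `pin k`. -/
def BlkStmt : Prop := ∀ (σ τ : List ℕ) (m : ℕ), Sg σ τ m → ∀ (d g : Bool) (f : ℕ → List ℕ)
  (p q W : List ℕ), W = p ++ ((wd σ m d g).flatMap f ++ q) → Fc σ m W →
    (∀ c ∈ wb m d g, ∀ k ≤ 2 * m + 2, sep k ∉ f c) ∧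
    (∀ c, c ∉ p → 1 ≤ nn W c (t1 σ) → ∀ k ≤ 2 * m + 2,
      (p ++ (wb m d g).flatMap f).count (pin k) ≤ 1 ∧
      (∀ a ∈ wb m d g, (∀ j, a ≠ pin j) → pin k ∉ f a))

/-- TCR (medium, uses BLK).  **Crossing of the tails.**
Proof.  `σ = pre σ j ++ j :: σ2`.  `W = Z1 ++ (f (pin j) ++ Z2)` with
`Z1 = p ++ (wb m d g).flatMap f ++ (tl (pre σ j)).flatMap f ++ f (sep j)`, the tail copy of `f (pin j)`;
`pin j ∈ wb` (TWC), so `pin k' ∈ (wb m d g).flatMap f`, so `pin k' ∈ Z1`.  (1) `sep k' ∈ Z1`: otherwise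
(`sep k' ∉ f (pin j)` by BLK) `pre W (sep k') = Z1 ++ f (pin j) ++ ..` contains `pin k'` twice,
contradiction to `Fc.ps`.  (2) `pin k` is in `f (pin j) ++ Z2`: for `j = j'` in `f (pin j)`; for
`j ∈ pre σ j'` we have `j' ∈ σ2` and `f (pin j')` is a part of `(tl σ2).flatMap f`.
`pre W (sep k') = pre Z1 (sep k')` by (1), so `nn W (pin k) (sep k') ≤ Z1.count (pin k) < W.count (pin k)`,
contradiction to `Fc.pa`. -/
def TcrStmt : Prop := ∀ (σ τ : List ℕ) (m : ℕ), Sg σ τ m → ∀ (d g : Bool) (f : ℕ → List ℕ)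
  (p q W : List ℕ), W = p ++ ((wd σ m d g).flatMap f ++ q) → Fc σ m W →
    ∀ j j' k k', j ≤ 2 * m + 2 → j' ≤ 2 * m + 2 → k ≤ 2 * m + 2 → k' ≤ 2 * m + 2 →
      (j = j' ∨ j ∈ pre σ j') → k ∈ pre σ k' → pin k' ∈ f (pin j) → pin k ∉ f (pin j')

/-- YPR (medium, uses BLK).  A letter which occurs only in front of `t1 σ` is in no image of a pin
which contains a pin.
Proof.  As TCR: `W = Z1 ++ (f (pin j) ++ Z2)`, `pin k ∈ Z1`.  `t1 σ ∈ Z1`, otherwise
`pre W (t1 σ)` contains `pin k` twice (`Fc.pt`).  So `nn W c (t1 σ) ≤ Z1.count c`, and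
`c ∈ f (pin j)` would give `Z1.count c < W.count c`. -/
def YprStmt : Prop := ∀ (σ τ : List ℕ) (m : ℕ), Sg σ τ m → ∀ (d g : Bool) (f : ℕ → List ℕ)
  (p q W : List ℕ), W = p ++ ((wd σ m d g).flatMap f ++ q) → Fc σ m W →
    ∀ c, nn W c (t1 σ) = W.count c → ∀ j k, j ≤ 2 * m + 2 → k ≤ 2 * m + 2 →
      pin k ∈ f (pin j) → c ∉ f (pin j)

/-- GFA (easy-medium).  The image of the first part in the form `gh`.
Proof.  Induction / computation: `cp 1 m = (range m).flatMap [pin (1+i), con (1+i), con (1+i)]`;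
`gh_succ`; `gh` depends only on the values `i < N` (`List.flatMap_congr`).  For the first: the last two
factors of `gh .. (m+2)` are `g m ++ h m ++ g (m+1) ++ []` and `h m` ends with the image of
`0, con (m+1), con (m+1)`. -/
def GfaStmt : Prop := ∀ (m : ℕ) (f : ℕ → List ℕ) (h : ℕ → List ℕ),
  h = (fun i => (if 1 ≤ i ∧ i ≤ m then f (con i) ++ f (con i) else []) ++
    (if i = m then f 0 ++ (f (con (m + 1)) ++ f (con (m + 1))) else [])) →
  (N0 m ++ 0 :: con (m + 1) :: [con (m + 1)]).flatMap f =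
    f 1 ++ ((f (con 0) ++ f (con 0)) ++ gh (fun i => f (pin i)) h (m + 1)) ∧
  (N0 m ++ 0 :: con (m + 1) :: con (m + 1) :: [pin (m + 1)]).flatMap f =
    f 1 ++ ((f (con 0) ++ f (con 0)) ++ gh (fun i => f (pin i)) h (m + 2))

/-- GFB (easy-medium).  The image of the second part in the form `gh`.
Proof.  As GFA, `cp (m+2) m`; `2 * m + 2 = m + 1 + (m + 1)`. -/
def GfbStmt : Prop := ∀ (m : ℕ) (g : Bool) (f : ℕ → List ℕ),
  (Nx m g).flatMap f = (f (con (m + 1)) ++ f (con (m + 1))) ++ ((if g then f 1 else []) ++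
    gh (fun i => f (pin (m + 1 + i))) (fun i => if i = 0 then f 1 else if i ≤ m then
      f (con (m + 1 + i)) ++ f (con (m + 1 + i)) else []) (m + 2))

/-- CVA (medium, uses TWC, BLK, TCR, GFA, `MWGN.cov`, `MWGN.pig`).  **Covering by the first copy.**
Proof.  Lights `M i = pin (m+1+i)`, `i < m + 2`.  Let `Γ` be the `gh`-part of GFA with `N = m + 2`
(`g = false`) resp. `N = m + 1` (`g = true`), so
`W = p ++ (f 1 ++ ((f (con 0) ++ f (con 0)) ++ (Γ ++ rest)))`.  `M i ∉ f a` for `a = 0, 1, con k`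
(hypothesis `hc`).  So `M i ∈ Γ`, with count 1 (`h1`).  `M i ∉ h j`.  No `f (pin j)` contains two
lights `M i, M i'`: `i ≠ i'`; one of `m+1+i ∈ pre σ (m+1+i')`, `m+1+i' ∈ pre σ (m+1+i)` holds
(`MWK.pre_total`), TCR with `j = j'`.  Order: for `i < i'`, `M i ∈ pre W (M i')` (`Fc.po`), and
`pre W (M i') = p ++ (f 1 ++ ((f (con 0) ++ f (con 0)) ++ pre Γ (M i')))` since `M i'` is not in the
first parts, `M i` neither, so `M i ∈ pre Γ (M i')`.  `g = false`: `cov`: `M i ∈ f (pin i)` for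
`i < m + 2`, take `i = 0, 1`.  `g = true`: `pig` gives `m + 2 ≤ m + 1`. -/
def CvaStmt : Prop := ∀ (σ τ : List ℕ) (m : ℕ), Sg σ τ m → ∀ (g : Bool) (f : ℕ → List ℕ)
  (p q W : List ℕ), W = p ++ ((wd σ m false g).flatMap f ++ q) → Fc σ m W →
    (∀ k ≤ 2 * m + 2, (p ++ (wb m false g).flatMap f).count (pin k) ≤ 1) →
    (∀ a ∈ wb m false g, (∀ j, a ≠ pin j) → ∀ k ≤ 2 * m + 2, pin k ∉ f a) →
    (∀ k, m + 1 ≤ k → k ≤ 2 * m + 2 → pin k ∉ p) →
    (∀ k, m + 1 ≤ k → k ≤ 2 * m + 2 → pin k ∈ (N0 m ++ 0 :: con (m + 1) ::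
      (if g then [con (m + 1)] else [con (m + 1), pin (m + 1)])).flatMap f) →
        g = false ∧ pin (m + 1) ∈ f (pin 0) ∧ pin (m + 2) ∈ f (pin 1)

/-- CVB (medium, uses TWC, BLK, TCR, GFB, `MWGN.cov`).  **Covering by the second copy.**
Proof.  Lights `M i = pin (a+i)`, `i < m + 2`, `a ≤ m + 1`.  Write (GFB)
`W = P ++ (B ++ (Γ ++ rest))` with `P = p ++ (N0 m).flatMap f ++ ([0] or [0,0]).flatMap f`,
`B = f (con (m+1)) ++ f (con (m+1)) ++ (f 1 or [])`, `Γ = gh ..` with `N = m + 2`.  `M i` is not in `P`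
(assumptions), not in `B` (`hc`), so in `Γ`, with count 1.  The rest as in CVA: `cov` gives
`M i ∈ f (pin (m+1+i))`. -/
def CvbStmt : Prop := ∀ (σ τ : List ℕ) (m : ℕ), Sg σ τ m → ∀ (d g : Bool) (f : ℕ → List ℕ)
  (p q W : List ℕ), W = p ++ ((wd σ m d g).flatMap f ++ q) → Fc σ m W →
    (∀ k ≤ 2 * m + 2, (p ++ (wb m d g).flatMap f).count (pin k) ≤ 1) →
    (∀ a ∈ wb m d g, (∀ j, a ≠ pin j) → ∀ k ≤ 2 * m + 2, pin k ∉ f a) →
    ∀ a ≤ m + 1, (∀ i < m + 2, pin (a + i) ∉ p ++ (N0 m).flatMap f) →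
      (∀ i < m + 2, pin (a + i) ∈ (Nx m g).flatMap f) → ∀ i < m + 2, pin (a + i) ∈ f (pin (m + 1 + i))

/-- GDB (medium, uses BLK, CVA, TCR).  **Class b, the insertion of `y`.**
Proof.  Let `c ∈ f 1`, `c % 5 ≠ 4`, `c ≠ 1`, `c ∉ p`.  `c = sep k` is impossible (BLK (1)).  `c = pin k`: BLK
(2) for `c` itself (`nn W c (t1 σ) = 1`): `pin k ∉ f 1`.  So `c = 0` (`Fc.al`).  `nn W 0 (t1 σ) ≥ 2`
(`xt`, `x2`), BLK (2) with `c = 0` gives the first two assumptions of CVA.  `pin (m+1) ∉ p`: otherwise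
`pre W (pin (m+1))` is a part of `p` and contains `0` (`xp`).  For `k > m + 1`: `pin (m+1)` is in
`pre W (pin k)` (`po`), so `pin k ∉ p`.  Last assumption of CVA: let
`Γ = (..).flatMap f` be the image there; it begins with `f 1`, and in `W` it is followed by `f 1`
(`g = false`: `pin (m+1), 1`; `g = true`: `1`): `W = p ++ (Γ ++ (f 1 ++ rest))`.  If `pin k ∉ Γ` then,
since `pin k ∉ p` and `pin k ∉ f 1`, `pre W (pin k) = p ++ (Γ ++ (f 1 ++ ..))` contains `0` twice, but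
`nn W 0 (pin k) ≤ nn W 0 (pin (2m+2)) ≤ 1` (`po`, `xl`).  CVA: `pin (m+1) ∈ f (pin 0)`,
`pin (m+2) ∈ f (pin 1)`.  TCR with `j = 1`, `j' = 0` (`Sg.o1`), `k = m + 1`, `k' = m + 2` (`Sg.o2`):
contradiction. -/
def GdbStmt : Prop := ∀ (σ τ : List ℕ) (m : ℕ), Sg σ τ m → ∀ (g : Bool) (f : ℕ → List ℕ)
  (p q : List ℕ), Fb σ m (p ++ ((wd σ m false g).flatMap f ++ q)) →
    ∀ c ∈ f 1, c % 5 = 4 ∨ c = 1 ∨ c ∈ p

/-- GDC (medium, uses BLK, CVB, TCR).  **Class c, the doubling of `x`.**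
Proof.  Let `P = p ++ (N0 m).flatMap f` and `c ∈ f 0`, `c % 5 ≠ 4`, `c ≠ 0`, `c ∉ P`.  `c = sep k`: BLK
(1).  `c = pin k`: BLK (2) for `c`: `pin k ∉ f 0`.  So `c = 1`.  `nn W 1 (t1 σ) ≥ 2`, BLK (2) with `c = 1`.
`pin 0 ∉ P`: otherwise `pre W (pin 0)` is a part of `P` and contains `1` (`y0`); so `pin k ∉ P` for all
`k ≤ 2m+2` (`po`).  `pin k ∉ f 0` (BLK).  Case `d = true`: `W = P ++ (f 0 ++ (f 0 ++ ..))`:
`pre W (pin (m+1))` contains `1` twice, contradiction to `y1`.  Case `d = false`: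
`W = P ++ (f 0 ++ ((Nx m g).flatMap f ++ (f 0 ++ ..)))`.  For `k ≤ m + 1`: `pin k ∈ (Nx m g).flatMap f`:
otherwise `pre W (pin k)` contains `f 0` twice, but `nn W 1 (pin k) ≤ nn W 1 (pin (m+1)) ≤ 1` (`po`).
CVB with `a = 0`: `pin 0 ∈ f (pin (m+1))`, `pin 1 ∈ f (pin (m+2))`.  TCR with `j = m + 1`,
`j' = m + 2` (`Sg.o2`), `k = 1`, `k' = 0` (`Sg.o1`): contradiction. -/
def GdcStmt : Prop := ∀ (σ τ : List ℕ) (m : ℕ), Sg σ τ m → ∀ (d g : Bool) (f : ℕ → List ℕ)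
  (p q : List ℕ), Fy σ m (p ++ ((wd σ m d g).flatMap f ++ q)) →
    ∀ c ∈ f 0, c % 5 = 4 ∨ c = 0 ∨ c ∈ p ++ (N0 m).flatMap f

/-- GDA (medium, uses BLK, CVB, YPR).  **Both classes, the doubling of `x` with `y` in front of `z`.**
Proof.  Let `P = p ++ (N0 m).flatMap f` and `c ∈ f 0`, `c % 5 ≠ 4`, `c ≠ 1`, `c ∉ P`.  `sep`, `pin` as in
GDC.  So `c = 0`.  BLK (2) with `c = 0`.  For `k ≥ m + 1`: `pin k ∉ P` (`xp`, `po`, as in GDB),
`pin k ∉ f 0`, and `nn W 0 (pin k) ≤ 1`.  `d = true`: `pre W (pin (2m+2))` contains `f 0` twice,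
contradiction to `xl`.  `d = false`: as in GDC `pin (m+1+i) ∈ (Nx m true).flatMap f` for `i < m + 2`
(otherwise `f 0` twice in front).  CVB with `a = m + 1`: `pin (m+1) ∈ f (pin (m+1))`,
`pin (m+2) ∈ f (pin (m+2))`.  `W = Z ++ (f (pin (m+1)) ++ (f 1 ++ (f (pin (m+2)) ++ ..)))` with
`Z = P ++ f 0 ++ f (con (m+1)) ++ f (con (m+1)) ++ f 1` (`Nx m true = con (m+1), con (m+1), 1,
pin (m+1), 1, pin (m+2), ..`, also for `m = 0`).  Each pin is once in `p ++ (wb ..).flatMap f` (BLK), so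
`pin (m+1) ∉ Z`, `pin (m+2) ∉ Z, f (pin (m+1)), f 1`.  `Z.count 1 ≤ nn W 1 (pin (m+1)) ≤ 1` (`y1`), `Z`
contains `f 1` twice (in `N0` and at the end), so `1 ∉ f 1`.  YPR (`yt`): `1 ∉ f (pin (m+1))`,
`1 ∉ f (pin (m+2))`.  So `nn W 1 (pin (m+2)) = Z.count 1 ≤ 1`, contradiction to `y3`. -/
def GdaStmt : Prop := ∀ (σ τ : List ℕ) (m : ℕ), Sg σ τ m → ∀ (d : Bool) (f : ℕ → List ℕ)
  (p q : List ℕ), Fb σ m (p ++ ((wd σ m d true).flatMap f ++ q)) →
    Fy σ m (p ++ ((wd σ m d true).flatMap f ++ q)) →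
      ∀ c ∈ f 0, c % 5 = 4 ∨ c = 1 ∨ c ∈ p ++ (N0 m).flatMap f

/-- TFW (easy-medium, uses MWGN.TLF).  The tails of the hull of `y`.
Proof.  `tl σ` `.flatMap F = σ.flatMap (fun k => F (sep k) ++ F (pin k))`; TLF with `p k = decide (k ≤ m+1)`:
`= (σ.filter p).flatMap (fun k => S' k ++ F (pin k)) ++ R`.  `τ' = (m+1) :: (σ.filter p).map (fun k => if
k = m + 1 then m + 2 else k)`, `S (m+1) = []`, `S i = S' i` for `i ≤ m`, `S (m+2) = S' (m+1)`. -/
def TfwStmt : Prop := ∀ (σ τ : List ℕ) (m : ℕ), Sg σ τ m → ∀ F : ℕ → List ℕ,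
  ∃ (τ' : List ℕ) (S : ℕ → List ℕ) (R : List ℕ), Tau τ' (m + 2) ∧ F 0 ++ (tl σ).flatMap F =
    τ'.flatMap (fun i => S i ++ (if i = m + 1 then F 0 else if i = m + 2 then F (pin (m + 1)) else
      F (pin i))) ++ R

/-- CLB (medium-hard, uses TFW, DDC, MWGN.FSP).  **The insertion of `y` is an identity in class b.**
(New proof, only `FBs`.)
Proof.  `F a = (f a).flatMap (psi 1)`, `F 1 = X`, `P = p.flatMap (psi 1)`, `b = con (m+1)`.  The image of
the instance of `w1` is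
`P X F(con 0)F(con 0) F(pin 0) [F(pin i) F(con i)F(con i)]_(1 ≤ i ≤ m) F(0) F(b)F(b) F(pin (m+1)) X B T`
with `B` = image of `cp (m+2) m ++ [pin (2m+2)]`, `T = F 0 ++ (tl σ).flatMap F ++ ..`, for `w2` there is an `X`
in front of `F(pin (m+1))`.  (i) `P X ~ P X X` (and in every place behind this): each letter of
`X` is a content and doubled there, or it is in `P` (as in row VVD).  (ii) `X X` commutes with
`F(con 0)F(con 0)` (`Gz.c`).  (iii) Let `r = m + 2`, `L i = F (pin i)` (`i ≤ m`), `L (m+1) = F 0`,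
`L (m+2) = F (pin (m+1))`, `C 0 = []`, `C i = F (con i)` (`1 ≤ i ≤ m`), `C (m+1) = F b`.  Then the word is
`P F(con 0)F(con 0) (ws X B S L C (fun _ => false) τ' r) R` with `τ'`, `S`, `R` from TFW.  By FSP and
`FBs` (`ws .. false ~ ws .. true ~ ws .. s`) it is `~` the same with `s i = decide (i = m + 1)`: `X X`
behind `F(b)F(b)`, in front of `F(pin (m+1))`.  (iv) back: `X X F(con 0)F(con 0) ~ ..`, `X X ~ X` at
both places. -/
def ClbStmt : Prop := ∀ β : FIC, Gz β → FBs β → ∀ (σ τ : List ℕ) (m : ℕ), Sg σ τ m →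
  ∀ (f : ℕ → List ℕ) (p q : List ℕ), (∀ c ∈ f 1, c % 5 = 4 ∨ c = 1 ∨ c ∈ p) →
    RR β ((p ++ ((wd σ m false false).flatMap f ++ q)).flatMap (psi 1))
      ((p ++ ((wd σ m false true).flatMap f ++ q)).flatMap (psi 1))

/-- CLC (easy-medium, uses KFB, GDB, GDC, GDA, CLB, VVD, FSF).  **The closure properties.**
Proof.  `FS` by FSF.  `KK β σ m e` is kept by `RR β` between the images under `psi e` (symmetry, transitivity).
(1) `KK .. 1 W` for `W` the instance of `w1` or `w2`: `Fb` (KFB), GDB, CLB.  (2) `KK .. 0 W`: `Fy`, GDC,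
VVD with `e = 0`, `A = p ++ (N0 m).flatMap f`, `v = f 0`.  (3) both: `KK 0` by (2); `KK 1`: `Fb`, `Fy`,
GDA, VVD with `e = 1`.  (`wd σ m d g = N0 m ++ (([0] or [0,0]) ++ ..)`.) -/
def ClcStmt : Prop := ∀ β : FIC, Gz β → ¬ E0 β → FBs β → ∀ (σ τ : List ℕ) (m : ℕ), Tau τ m →
  Sg σ τ m → BtS β m → ¬ LE β τ m → ∀ (f : ℕ → List ℕ) (p q : List ℕ),
    (KK β σ m 1 (p ++ ((wd σ m false false).flatMap f ++ q)) ↔
      KK β σ m 1 (p ++ ((wd σ m false true).flatMap f ++ q))) ∧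
    (∀ g : Bool, KK β σ m 0 (p ++ ((wd σ m false g).flatMap f ++ q)) ↔
      KK β σ m 0 (p ++ ((wd σ m true g).flatMap f ++ q))) ∧
    ((KK β σ m 1 (p ++ ((wd σ m false true).flatMap f ++ q)) ∧
        KK β σ m 0 (p ++ ((wd σ m false true).flatMap f ++ q))) ↔
      (KK β σ m 1 (p ++ ((wd σ m true true).flatMap f ++ q)) ∧
        KK β σ m 0 (p ++ ((wd σ m true true).flatMap f ++ q))))

/-- PEN (medium, uses CLC, SIG, CPX, LER).  **Light end pentagon.**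
Proof.  Suppose `¬ LE β τ m`, take `σ` (SIG).  `w1 = wd false false`, `w2 = wd false true`,
`w3 = wd true true`, `w4 = wd true false`.  `S = gaml (KK β σ m 1)`, `T = gaml (KK β σ m 0)`,
`K w = KK β σ m 1 w ∧ KK β σ m 0 w`, `R = FIC.inf (gaml K) T`.  `β ≤ S, T, gaml K` (`MWF.le_gaml`: if
`RR β u v` then `RR β (u.flatMap ψ) (v.flatMap ψ)` by `RR.sub`).  `RR S w1 w2`, `RR T w1 w4`, `RR T w2 w3`,
`RR (gaml K) w2 w3` (CLC, `MWF.RR_gaml`).  `RR S w4 w3`: `RR.sub` with `0 ↦ [0, 0]`, other letters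
`c ↦ [c]` in `RR S w1 w2`: the image of `w1` is `N0 0 0 Nx 0 0 tl ~ N0 0 0 Nx 0 tl = w4` by `gm`
(in `β ≤ S`), the image of `w2` is `~ w3`.  So `w1 S w2 R w3 S w4`, `RR T w1 w4`.  `MWF.pent` with
`P = K`, `ρ = R`, `σ = S`, `τ = T`: `R` keeps `K` (`gaml_keep`), a pair of `S` and `T` keeps `K`.
`K w1` by reflexivity.  So `KK β σ m 1 w4`: `RR β (w4.flatMap (psi 1)) (w1.flatMap (psi 1))`.
`RR.filter (Fx m)` and CPX: `x x lw4 x T ~ x lw4 x T`; symmetric; LER (the names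
`0, sep (i+(m+2)), pin (i+(m+2)), con (i+(m+1))` are different): `LE β τ m`. -/
def PenStmt : Prop := ∀ β : FIC, ModF β → Gz β → ¬ E0 β → FBs β → ∀ (m : ℕ) (τ : List ℕ), Tau τ m →
  BtS β m → LE β τ m

/-- ALE (easy, uses PEN, BTS).  Strong induction on `m`. -/
def AleStmt : Prop := ∀ β : FIC, ModF β → Gz β → ¬ E0 β → FBs β → ∀ (m : ℕ) (τ : List ℕ), Tau τ m →
  LE β τ m

/-- AIO (medium, uses BTS).  **All light end identities give `I1`.**
Proof.  Claim: if all letters of `B` occur at least twice in `p x B x q` then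
`p x B x q ~ p x x B x q`.  Strong induction on the length of `B`.  `x ∈ p`: `gm`.  `x ∈ B`: `B = B1 x B2`,
`x ∉ B1`: induction assumption for `B1` (`q` becomes `B2 ++ x :: q`).  Otherwise let
`Q c = decide (B.count c = 1 ∧ c ∉ p)`.  Step (i): for every splitting `B = B' ++ B''`:
`p x B x q ~ p x (dq Q B') B'' x q`.  Induction on `B'`, next letter `c`, `B'' = c :: B3`: if `Q c` nothing.
If `c ∈ p` or `c ∈ B'` then `c` occurs in front, `c ~ c c` (`gm`).  Otherwise `B.count c ≥ 2`, so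
`B3 = u ++ c :: u'`, `c ∉ u`, `u` is shorter than `B`: the induction assumption for the word
`(p x (dq Q B')) c u c (u' x q)` gives `c u c ~ c c u c` (the letters of `u` occur at least twice: the
counts are not smaller than in the first word).  In the same way
`p x x B x q ~ p x x (dq Q B) x q` (the same argument with `p ++ [x]` in place of `p`; `x ∉ B`).
Step (ii): `BtS β n` for all `n` (BTS): `p x (dq Q B) x q ~ p x x (dq Q B) x q`: `B.filter Q` is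
duplicate free, a letter `c` with `Q c` occurs once in `B`, not in `p`, `c ≠ x`, so it is in `q`. -/
def AioStmt : Prop := ∀ β : FIC, Gz β → (∀ (m : ℕ) (τ : List ℕ), Tau τ m → LE β τ m) →
  MWZ.I1 1 (RR β)

/-- AIT (easy).  `I1` and `FF` imply `I2`.
Proof.  `p x c x (d x q) ~ p x x c x (d x q)` (`I1` with `q` replaced by `d ++ x :: q`; letters of `c` occur
at least twice), and `p x x c (d x q) ~ p x x c x d x q` (`FF` with `w = c`, `w' = d`; a letter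
different from `x` has the same count as before, `x` occurs three times). -/
def AitStmt : Prop := ∀ β : FIC, Gz β → FF β → MWZ.I1 1 (RR β) → MWZ.I2 (RR β)

/-- LEF (easy, uses ALE, AIO, AIT, MWGN.PEF, MWGN.FFR).  **Light ends of the gamma world.**
Proof.  `FBs` is MWGN.PEF.  ALE and AIO give `I1`; MWGN.FFR gives `FFW β`, this is `FF β`; AIT. -/
def LefStmt : Prop := ∀ β : FIC, ModF β → Gz β → ¬ E0 β → MWZ.I1 1 (RR β) ∧ MWZ.I2 (RR β)

end Pool.Agent.MWLE
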